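import Pool.Agent.H.MP_97e4cf_co.Rob

set_option autoImplicit false

namespace Pool.Agent.Results.MP_97e4cf_co.Inertia

open Finset Matrix Filter Topology

def IsCompl {N : ℕ} (E : Set (Sym2 (Fin N))) (M : E → ℝ) (C : Matrix (Fin N) (Fin N) ℝ) : Prop :=
  C.IsSymm ∧ ∀ i j (h : s(i, j) ∈ E), C i j = M ⟨s(i, j), h⟩

def MinFull {N : ℕ} (E : Set (Sym2 (Fin N))) (M : E → ℝ) : Prop :=
  (∃ C, IsCompl E M C ∧ C.rank = N) ∧ ∀ C, IsCompl E M C → ¬ C.rank < N

def FullTypical {N : ℕ} (E : Set (Sym2 (Fin N))) : Prop :=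
  ∃ U : Set (E → ℝ), IsOpen U ∧ U.Nonempty ∧ ∀ M ∈ U, MinFull E M

def Bicol {N : ℕ} (E : Set (Sym2 (Fin N))) (m n : ℕ) : Prop :=
  ∃ col : Fin N → Bool, (∀ i j, s(i, j) ∉ E → col i ≠ col j) ∧
    (univ.filter fun i => col i = true).card = m ∧ (univ.filter fun i => col i = false).card = n

open Pool.Agent.H.MP_97e4cf_co

lemma minFull_iff {N : ℕ} (E : Set (Sym2 (Fin N))) (M : E → ℝ) :
    MinFull E M ↔ ∀ C, IsCompl E M C → IsUnit C := by
  classical
  constructor
  · intro h C hC
    have h1 := h.2 C hC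
    have h2 : C.rank ≤ N := by simpa using C.rank_le_width
    exact (rank_iff C).1 (by omega)
  · intro h
    have hC : IsCompl E M (Matrix.of fun i j => if e : s(i, j) ∈ E then M ⟨_, e⟩ else 0) := by
      refine ⟨Matrix.IsSymm.ext fun i j => ?_, fun i j e => by simp [e]⟩
      simp only [of_apply, Sym2.eq_swap (a := j)]
    exact ⟨⟨_, hC, (rank_iff _).2 (h _ hC)⟩, fun C hC => by rw [(rank_iff _).2 (h _ hC)]; omega⟩

def E0 : Set (Sym2 (Fin 6)) := {e | e ≠ s(0, 1) ∧ e ≠ s(0, 2) ∧ e ≠ s(0, 3) ∧ e ≠ s(0, 4)}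

noncomputable def M0 : E0 → ℝ := fun e => if e.1 = s(0, 5) ∨ e.1 = s(1, 1) ∨ e.1 = s(2, 2) then 1
  else if e.1 = s(3, 3) ∨ e.1 = s(4, 4) then -1 else 0

lemma form0 (C : Matrix (Fin 6) (Fin 6) ℝ) (h : IsCompl E0 M0 C) : ∃ a b c d : ℝ,
    C = !![0, a, b, c, d, 1; a, 1, 0, 0, 0, 0; b, 0, 1, 0, 0, 0; c, 0, 0, -1, 0, 0;
      d, 0, 0, 0, -1, 0; 1, 0, 0, 0, 0, 0] := by
  refine ⟨C 0 1, C 0 2, C 0 3, C 0 4, ?_⟩
  ext i j
  fin_cases i <;> fin_cases j <;>
    first | rfl | exact h.1.apply _ _ | (rw [h.2 _ _ (by simp [E0])]; simp [M0])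

theorem result :
    (∃ (E : Set (Sym2 (Fin 6))) (M : E → ℝ), FullTypical E ∧ MinFull E M ∧
      (∀ C, IsCompl E M C → sigPos C.toQuadraticForm' = 3 ∧ sigNeg C.toQuadraticForm' = 3) ∧
      ¬ Bicol E 3 3) ∧
    ∀ (N : ℕ) (E : Set (Sym2 (Fin N))) (U : Set (E → ℝ)), IsOpen U → (∀ M ∈ U, MinFull E M) →
      ∀ M ∈ U, ∀ C, IsCompl E M C →
        Bicol E (sigPos C.toQuadraticForm') (sigNeg C.toQuadraticForm') := by
  classical
  constructor
  · have hu : ∀ C, IsCompl E0 M0 C → IsUnit C := by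
      intro C hC
      obtain ⟨a, b, c, d, rfl⟩ := form0 C hC
      rw [← mulVec_injective_iff_isUnit]
      intro x y h
      have h0 := congrFun h 0
      have h1 := congrFun h 1
      have h2 := congrFun h 2
      have h3 := congrFun h 3
      have h4 := congrFun h 4
      have h5 := congrFun h 5
      simp [mulVec, dotProduct, Fin.sum_univ_succ] at h0 h1 h2 h3 h4 h5
      rw [h5] at h1 h2 h3 h4
      simp only [add_right_inj, neg_inj] at h1 h2 h3 h4
      rw [h1, h2, h3, h4] at h0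
      simp only [add_right_inj] at h0
      funext i
      fin_cases i <;> assumption
    refine ⟨E0, M0, ?_, (minFull_iff _ _).2 hu, fun C hC => ?_, ?_⟩
    · let d : Fin 6 → ℝ := fun i => if i = 0 then -1 else 1
      let D : E0 → ℝ := fun e => if e.1 = s(0, 0) then -1 else if e.1.IsDiag then 1 else 0
      refine ⟨Metric.ball D (1 / 7), Metric.isOpen_ball, ⟨D, by simp⟩, fun M hM => ?_⟩
      rw [minFull_iff]
      intro C hC
      refine quasi d (fun i => by simp only [d]; split_ifs <;> simp) C hC.1 fun i j hij => ?_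
      have e : s(i, j) ∈ E0 := by
        fin_cases i <;> fin_cases j <;> simp [E0, d] at hij ⊢ <;> norm_num at hij
      have h1 := (dist_pi_lt_iff (by norm_num)).1 (Metric.mem_ball.1 hM) ⟨_, e⟩
      have h2 : D ⟨_, e⟩ = diagonal d i j := by
        fin_cases i <;> fin_cases j <;> simp [D, d]
      rw [hC.2 i j e, ← h2]
      norm_num
      exact h1
    · have h1 := sig_add hC.1 (hu C hC)
      obtain ⟨a, b, c, d, e⟩ := form0 C hC
      have h2 := QuadraticForm.sigPos_add_finrank_le_of_nonpos (Q := C.toQuadraticForm')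
        (V := Pi.spanSubset ℝ (({3, 4, 5} : Finset (Fin 6)) : Set (Fin 6))) (by
          intro x hx
          rw [Pi.mem_spanSubset_iff] at hx
          rw [qf, e]
          simp [mulVec, dotProduct, Fin.sum_univ_succ, hx 0 (by simp), hx 1 (by simp),
            hx 2 (by simp)]
          nlinarith [mul_self_nonneg (x 3), mul_self_nonneg (x 4)])
      have h3 := QuadraticForm.sigPos_add_finrank_le_of_nonpos (Q := -C.toQuadraticForm')
        (V := Pi.spanSubset ℝ (({1, 2, 5} : Finset (Fin 6)) : Set (Fin 6))) (by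
          intro x hx
          rw [Pi.mem_spanSubset_iff] at hx
          rw [_root_.neg_apply, qf, e]
          simp [mulVec, dotProduct, Fin.sum_univ_succ, hx 0 (by simp), hx 3 (by simp),
            hx 4 (by simp)]
          nlinarith [mul_self_nonneg (x 1), mul_self_nonneg (x 2)])
      rw [Pi.dim_spanSubset, Set.ncard_coe_finset] at h2 h3
      rw [sigPos_neg] at h3
      simp at h2 h3
      omega
    · rintro ⟨col, h1, h2, h3⟩
      have k1 := h1 0 1 (by simp [E0])
      have k2 := h1 0 2 (by simp [E0])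
      have k3 := h1 0 3 (by simp [E0])
      have k4 := h1 0 4 (by simp [E0])
      rw [card_filter, Fin.sum_univ_six, Bool.eq_not_iff.2 k1.symm, Bool.eq_not_iff.2 k2.symm,
        Bool.eq_not_iff.2 k3.symm, Bool.eq_not_iff.2 k4.symm] at h2
      revert h2
      cases col 0 <;> cases col 5 <;> simp
  · intro N E U hU hM M hMU C hC
    have hu := (minFull_iff _ _).1 (hM M hMU) C hC
    have hd : IsUnit C.det := (isUnit_iff_isUnit_det C).1 hu
    refine colour (H := fun i j => s(i, j) ∉ E) hC.1 hu ⟨?_, ?_⟩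
      (fun i j h => by rwa [Sym2.eq_swap])
    · rw [transpose_nonsing_inv, hC.1]
    · have hd' : C⁻¹.det ≠ 0 := (isUnit_nonsing_inv_det C hd).ne_zero
      have c1 : ContinuousAt (fun A : Matrix (Fin N) (Fin N) ℝ => A⁻¹) C⁻¹ :=
        continuousAt_matrix_inv _ (by
          rw [Ring.inverse_eq_inv']; exact continuousAt_inv₀ hd')
      let res : Matrix (Fin N) (Fin N) ℝ → E → ℝ := fun A e => A e.1.out.1 e.1.out.2
      have hres : ∀ A : Matrix (Fin N) (Fin N) ℝ, A.IsSymm → IsCompl E (res A) A := by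
        intro A hA
        refine ⟨hA, fun i j h => ?_⟩
        have : s((s(i, j)).out.1, (s(i, j)).out.2) = s(i, j) := Quot.out_eq _
        rcases Sym2.eq_iff.1 this with h1 | h1
        · simp only [res, h1.1, h1.2]
        · simp only [res, h1.1, h1.2]; exact hA.apply _ _
      have c2 : Continuous res := continuous_pi fun e => by fun_prop
      have e1 : res C⁻¹⁻¹ = M := by
        rw [nonsing_inv_nonsing_inv C hd]
        funext ⟨e, he⟩
        induction e using Sym2.ind with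
        | h i j => rw [← (hres C hC.1).2 i j he, hC.2 i j he]
      have h1 : ∀ᶠ A in 𝓝 C⁻¹, res A⁻¹ ∈ U :=
        (c2.continuousAt.comp c1).preimage_mem_nhds (hU.mem_nhds (by simpa [e1] using hMU))
      have h2 : ∀ᶠ A in 𝓝 C⁻¹, A.det ≠ 0 :=
        (continuous_id.matrix_det.continuousAt).eventually_ne hd'
      filter_upwards [h1, h2] with A hA1 hA2 hA3 X hX u hu'
      have hs : (A⁻¹).IsSymm := by rw [IsSymm, transpose_nonsing_inv, hA3]
      have h3 : IsUnit (A⁻¹ + X) := (minFull_iff _ _).1 (hM _ hA1) _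
        ⟨hs.add hX.1, fun i j h => by
          rw [Matrix.add_apply, hX.2 i j (not_not.2 h), add_zero, (hres _ hs).2 i j h]⟩
      have h4 : A⁻¹ *ᵥ (A *ᵥ u) = u := by
        rw [mulVec_mulVec, nonsing_inv_mul A (Ne.isUnit hA2), one_mulVec]
      have h5 : A *ᵥ u = 0 := mulVec_injective_iff_isUnit.2 h3 (by
        rw [add_mulVec, h4, hu', mulVec_zero])
      rw [← h4, h5, mulVec_zero]

end Pool.Agent.Results.MP_97e4cf_co.Inertia
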